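import Pool.Agent.Helper62.LH.StG

/-! # Project LH: first variation -/

set_option autoImplicit false
set_option maxSynthPendingDepth 3

open Set Filter Topology MeasureTheory
open scoped ContDiff

noncomputable section

namespace Pool.Agent.Helper48.LH

open Helper62.LH

lemma nonneg_RGB {n : ℕ} {g : E n → Bl n} (hg : IsMet g) (x v : E n) : 0 ≤ g x v v := by
  by_cases hv : v = 0
  · subst hv; simp
  · exact (hg.pos x v hv).le

lemma dg_nonneg_RGB {n : ℕ} (g : E n → Bl n) (x y : E n) : 0 ≤ dg g x y := by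
  apply Real.sInf_nonneg
  rintro l ⟨c, -, -, -, rfl⟩
  unfold len
  apply intervalIntegral.integral_nonneg (by norm_num)
  intro t _
  exact Real.sqrt_nonneg _

/-- the energy density of the variation -/
def G_RGB {n : ℕ} (g : E n → Bl n) (γ ξ w ξ' : ℝ → E n) (τ t : ℝ) : ℝ :=
  g (γ t + τ • ξ t) (w t + τ • ξ' t) (w t + τ • ξ' t)

/-- its derivative, as a function of the four arguments -/
def Φ_RGB {n : ℕ} (g : E n → Bl n) (q : E n × E n × E n × E n) : ℝ :=
  (fderiv ℝ g q.1 q.2.1 q.2.2.2 + g q.1 q.2.2.1) q.2.2.2 + g q.1 q.2.2.2 q.2.2.1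

def Ψ_RGB {n : ℕ} (g : E n → Bl n) (q : E n × E n) : ℝ := g q.1 q.2 q.2

lemma contΨ_RGB {n : ℕ} {g : E n → Bl n} (hg : IsMet g) : Continuous (Ψ_RGB g) := by
  unfold Ψ_RGB
  have h : Continuous g := hg.smooth.continuous
  exact ((h.comp continuous_fst).clm_apply continuous_snd).clm_apply continuous_snd

lemma contΦ_RGB {n : ℕ} {g : E n → Bl n} (hg : IsMet g) : Continuous (Φ_RGB g) := by
  unfold Φ_RGB
  have h : Continuous g := hg.smooth.continuous
  have h' : Continuous (fderiv ℝ g) := hg.smooth.continuous_fderiv (by simp)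
  have c1 : Continuous (fun q : E n × E n × E n × E n => q.1) := continuous_fst
  have c2 : Continuous (fun q : E n × E n × E n × E n => q.2.1) := continuous_fst.comp continuous_snd
  have c3 : Continuous (fun q : E n × E n × E n × E n => q.2.2.1) :=
    continuous_fst.comp (continuous_snd.comp continuous_snd)
  have c4 : Continuous (fun q : E n × E n × E n × E n => q.2.2.2) :=
    continuous_snd.comp (continuous_snd.comp continuous_snd)
  exact (((((h'.comp c1).clm_apply c2).clm_apply c4).add ((h.comp c1).clm_apply c3)).clm_apply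
    c4).add (((h.comp c1).clm_apply c4).clm_apply c3)

lemma deriv_RGB {n : ℕ} {g : E n → Bl n} (hg : IsMet g) (γ ξ w ξ' : ℝ → E n) (τ t : ℝ) :
    HasDerivAt (fun s => G_RGB g γ ξ w ξ' s t)
      (Φ_RGB g (γ t + τ • ξ t, ξ t, ξ' t, w t + τ • ξ' t)) τ := by
  have hd : Differentiable ℝ g := hg.smooth.differentiable (by simp)
  have h1 : HasDerivAt (fun s : ℝ => γ t + s • ξ t) (ξ t) τ := by
    simpa using ((hasDerivAt_id τ).smul_const (ξ t)).const_add (γ t)
  have h2 : HasDerivAt (fun s : ℝ => w t + s • ξ' t) (ξ' t) τ := by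
    simpa using ((hasDerivAt_id τ).smul_const (ξ' t)).const_add (w t)
  have h3 : HasDerivAt (fun s : ℝ => g (γ t + s • ξ t)) (fderiv ℝ g (γ t + τ • ξ t) (ξ t)) τ :=
    HasFDerivAt.comp_hasDerivAt (f := fun s : ℝ => γ t + s • ξ t) (l := g) τ
      (hd (γ t + τ • ξ t)).hasFDerivAt h1
  exact (h3.clm_apply h2).clm_apply h2

/-- Cauchy-Schwarz in the form we need -/
lemma cs_RGB (L : ℝ) (hL : 0 ≤ L) (f : ℝ → ℝ) (hf : IntervalIntegrable f volume 0 1)
    (hf0 : ∀ t, 0 ≤ f t)
    (h : L ≤ ∫ t in (0 : ℝ)..1, √(f t)) : L ^ 2 ≤ ∫ t in (0 : ℝ)..1, f t := by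
  have hs : IntervalIntegrable (fun t => √(f t)) volume 0 1 := by
    have h1 : IntervalIntegrable (fun t => 1 + f t) volume 0 1 :=
      (intervalIntegrable_const).add hf
    refine h1.mono_fun' ?_ ?_
    · exact ((intervalIntegrable_iff.1 hf).aestronglyMeasurable.aemeasurable.sqrt).aestronglyMeasurable
    · refine Filter.Eventually.of_forall fun t => ?_
      simp only
      rw [Real.norm_of_nonneg (Real.sqrt_nonneg _)]
      have := Real.sq_sqrt (hf0 t)
      nlinarith [sq_nonneg (√(f t) - 1), Real.sqrt_nonneg (f t)]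
  have h2 : ∫ t in (0 : ℝ)..1, 2 * L * √(f t) ≤ ∫ t in (0 : ℝ)..1, (L ^ 2 + f t) := by
    apply intervalIntegral.integral_mono_on (by norm_num) (hs.const_mul _)
      ((intervalIntegrable_const).add hf)
    intro t _
    have := Real.sq_sqrt (hf0 t)
    nlinarith [sq_nonneg (√(f t) - L)]
  rw [intervalIntegral.integral_const_mul, intervalIntegral.integral_add intervalIntegrable_const hf]
    at h2
  simp only [intervalIntegral.integral_const, sub_zero, smul_eq_mul, one_mul] at h2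
  nlinarith

/-- bounded continuous functions of bounded measurable functions are integrable on `[0,1]` -/
lemma int_RGB {X : Type*} [NormedAddCommGroup X] [NormedSpace ℝ X] [ProperSpace X]
    [MeasurableSpace X] [BorelSpace X]
    (Θ : X → ℝ) (hΘ : Continuous Θ) (q : ℝ → X) (hq : Measurable q) (R : ℝ)
    (hR : ∀ t ∈ Icc (0 : ℝ) 1, ‖q t‖ ≤ R) :
    IntervalIntegrable (fun t => Θ (q t)) volume 0 1 := by
  obtain ⟨M, hM⟩ := (isCompact_closedBall (0 : X) R).exists_bound_of_continuousOn hΘ.continuousOn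
  have h1 : IntervalIntegrable (fun _ : ℝ => M) volume 0 1 := intervalIntegrable_const
  refine h1.mono_fun' ?_ ?_
  · exact (hΘ.measurable.comp hq).aestronglyMeasurable
  · rw [Filter.EventuallyLE, ae_restrict_iff' measurableSet_uIoc]
    refine Filter.Eventually.of_forall fun t ht => ?_
    rw [uIoc_of_le (by norm_num)] at ht
    exact hM _ (by simpa using hR t ⟨ht.1.le, ht.2⟩)

theorem hRgb (hLl : StLl) : StRgb := by
  intro n g hg γ K hγ hae ξ hξ hξc hξs
  set L := dg g (γ 0) (γ 1) with hLdef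
  have hL : 0 ≤ L := dg_nonneg_RGB g _ _
  set w := deriv γ with hw
  set ξ' := deriv ξ with hξ'
  have hwm : Measurable w := measurable_deriv γ
  have hγm : Measurable γ := hγ.continuous.measurable
  have hξd : Differentiable ℝ ξ := hξ.differentiable (by simp)
  have hξm : Measurable ξ := hξ.continuous.measurable
  have hξ'c : Continuous ξ' := hξ.continuous_deriv (by simp)
  have hξ'm : Measurable ξ' := hξ'c.measurable
  -- bounds
  have hwb : ∀ t, ‖w t‖ ≤ K := fun t => norm_deriv_le_of_lipschitz hγ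
  obtain ⟨B, hB⟩ := hξc.exists_bound_of_continuous hξ.continuous
  obtain ⟨B', hB'⟩ := (hξc.deriv).exists_bound_of_continuous hξ'c
  have hγb : ∀ t ∈ Icc (0 : ℝ) 1, ‖γ t‖ ≤ ‖γ 0‖ + K := by
    intro t ht
    have h1 := hγ.dist_le_mul t 0
    rw [dist_eq_norm, Real.dist_eq, sub_zero, abs_of_nonneg ht.1] at h1
    have h2 : ‖γ t‖ ≤ ‖γ 0‖ + ‖γ t - γ 0‖ := by
      have := norm_add_le (γ 0) (γ t - γ 0)
      simpa using this
    have h3 : (K : ℝ) * t ≤ K := by
      have := K.coe_nonneg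
      nlinarith [ht.2]
    linarith
  have hB0 : 0 ≤ B := (norm_nonneg _).trans (hB 0)
  have hB'0 : 0 ≤ B' := (norm_nonneg _).trans (hB' 0)
  set R : ℝ := ‖γ 0‖ + K + B + B' with hRdef
  have hK0 : (0 : ℝ) ≤ K := K.coe_nonneg
  have hP : ∀ τ : ℝ, |τ| ≤ 1 → ∀ t ∈ Icc (0 : ℝ) 1, ‖γ t + τ • ξ t‖ ≤ R := by
    intro τ hτ t ht
    have h1 : ‖τ • ξ t‖ ≤ B := by
      rw [norm_smul, Real.norm_eq_abs]
      nlinarith [hB t, norm_nonneg (ξ t), abs_nonneg τ]
    linarith [norm_add_le (γ t) (τ • ξ t), hγb t ht]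
  have hV : ∀ τ : ℝ, |τ| ≤ 1 → ∀ t, ‖w t + τ • ξ' t‖ ≤ R := by
    intro τ hτ t
    have h1 : ‖τ • ξ' t‖ ≤ B' := by
      rw [norm_smul, Real.norm_eq_abs]
      nlinarith [hB' t, norm_nonneg (ξ' t), abs_nonneg τ]
    linarith [norm_add_le (w t) (τ • ξ' t), hwb t, norm_nonneg (γ 0)]
  have hξR : ∀ t, ‖ξ t‖ ≤ R := fun t => by linarith [hB t, norm_nonneg (γ 0)]
  have hξ'R : ∀ t, ‖ξ' t‖ ≤ R := fun t => by linarith [hB' t, norm_nonneg (γ 0)]
  have hPm : ∀ τ : ℝ, Measurable (fun t => γ t + τ • ξ t) := fun τ => hγm.add (hξm.const_smul τ)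
  have hVm : ∀ τ : ℝ, Measurable (fun t => w t + τ • ξ' t) := fun τ => hwm.add (hξ'm.const_smul τ)
  -- integrability
  have hGi : ∀ τ : ℝ, |τ| ≤ 1 → IntervalIntegrable (G_RGB g γ ξ w ξ' τ) volume 0 1 := by
    intro τ hτ
    refine int_RGB (Ψ_RGB g) (contΨ_RGB hg) (fun t => (γ t + τ • ξ t, w t + τ • ξ' t))
      ((hPm τ).prodMk (hVm τ)) R ?_
    intro t ht
    exact max_le (hP τ hτ t ht) (hV τ hτ t)
  -- the main inequality
  have hmain : ∀ τ : ℝ, |τ| ≤ 1 → L ^ 2 ≤ ∫ t in (0 : ℝ)..1, G_RGB g γ ξ w ξ' τ t := by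
    intro τ hτ
    refine cs_RGB L hL _ (hGi τ hτ) (fun t => nonneg_RGB hg _ _) ?_
    obtain ⟨K1, hK1⟩ := hξ.lipschitzWith_of_hasCompactSupport hξc (by simp)
    have hlip : LipschitzWith (K + ‖τ‖₊ * K1) (fun t => γ t + τ • ξ t) :=
      hγ.add ((lipschitzWith_smul τ).comp hK1)
    have h0 : ξ 0 = 0 := image_eq_zero_of_notMem_tsupport fun h => absurd (hξs h).1 (lt_irrefl _)
    have h1 : ξ 1 = 0 := image_eq_zero_of_notMem_tsupport fun h => absurd (hξs h).2 (lt_irrefl _)
    have h2 := hLl n g hg (fun t => γ t + τ • ξ t) _ hlip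
    simp only [h0, h1, smul_zero, add_zero] at h2
    refine h2.trans (le_of_eq ?_)
    apply intervalIntegral.integral_congr_ae
    rw [ae_restrict_iff' measurableSet_Icc] at hae
    filter_upwards [hae] with t ht htI
    rw [uIoc_of_le (by norm_num)] at htI
    have h3 := (ht ⟨htI.1.le, htI.2⟩).1
    have h4 : deriv (fun t => γ t + τ • ξ t) t = w t + τ • ξ' t := by
      have := (h3.hasDerivAt.add ((hξd t).hasDerivAt.const_smul τ)).deriv
      exact this
    unfold nr G_RGB
    rw [h4]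
  have hzero : ∫ t in (0 : ℝ)..1, G_RGB g γ ξ w ξ' 0 t = L ^ 2 := by
    have : ∫ t in (0 : ℝ)..1, G_RGB g γ ξ w ξ' 0 t = ∫ t in (0 : ℝ)..1, L ^ 2 := by
      apply intervalIntegral.integral_congr_ae
      rw [ae_restrict_iff' measurableSet_Icc] at hae
      filter_upwards [hae] with t ht htI
      rw [uIoc_of_le (by norm_num)] at htI
      have h3 := (ht ⟨htI.1.le, htI.2⟩).2
      unfold G_RGB
      simpa using h3
    rw [this]; simp
  -- differentiation under the integral sign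
  obtain ⟨M, hM⟩ := (isCompact_closedBall (0 : E n × E n × E n × E n) R).exists_bound_of_continuousOn
    (contΦ_RGB hg).continuousOn
  have hq : ∀ τ : ℝ, |τ| ≤ 1 → ∀ t ∈ Icc (0 : ℝ) 1,
      ‖((γ t + τ • ξ t, ξ t, ξ' t, w t + τ • ξ' t) : E n × E n × E n × E n)‖ ≤ R := by
    intro τ hτ t ht
    exact max_le (hP τ hτ t ht) (max_le (hξR t) (max_le (hξ'R t) (hV τ hτ t)))
  have hder := (intervalIntegral.hasDerivAt_integral_of_dominated_loc_of_deriv_le
    (μ := volume) (a := 0) (b := 1) (bound := fun _ => M) (F := fun τ t => G_RGB g γ ξ w ξ' τ t)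
    (F' := fun τ t => Φ_RGB g (γ t + τ • ξ t, ξ t, ξ' t, w t + τ • ξ' t)) (x₀ := (0 : ℝ))
    (s := Metric.ball (0 : ℝ) 1) (Metric.ball_mem_nhds _ one_pos)
    (by
      refine Filter.Eventually.of_forall fun τ => ?_
      exact (((contΨ_RGB hg).measurable.comp ((hPm τ).prodMk (hVm τ)))).aestronglyMeasurable)
    (hGi 0 (by simp))
    (((contΦ_RGB hg).measurable.comp ((hPm 0).prodMk (hξm.prodMk
      (hξ'm.prodMk (hVm 0))))).aestronglyMeasurable)
    (by
      refine Filter.Eventually.of_forall fun t ht τ hτ => ?_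
      rw [uIoc_of_le (by norm_num)] at ht
      refine hM _ ?_
      rw [mem_closedBall_zero_iff]
      refine hq τ ?_ t ⟨ht.1.le, ht.2⟩
      rw [mem_ball_zero_iff] at hτ
      exact hτ.le)
    intervalIntegrable_const
    (by
      refine Filter.Eventually.of_forall fun t ht τ hτ => ?_
      exact deriv_RGB hg γ ξ w ξ' τ t)).2
  have hmin : IsLocalMin (fun τ => ∫ t in (0 : ℝ)..1, G_RGB g γ ξ w ξ' τ t) 0 := by
    filter_upwards [Metric.ball_mem_nhds (0 : ℝ) one_pos] with τ hτ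
    rw [hzero]
    rw [mem_ball_zero_iff] at hτ
    exact hmain τ hτ.le
  have hz := hmin.hasDerivAt_eq_zero hder
  have hfin : ∫ t in (0 : ℝ)..1, 2 * (g (γ t) (w t) (ξ' t) +
      fderiv ℝ g (γ t) (ξ t) (w t) (w t) / 2) = 0 := by
    refine Eq.trans ?_ hz
    apply intervalIntegral.integral_congr
    intro t _
    unfold Φ_RGB
    simp only [zero_smul, add_zero, ContinuousLinearMap.add_apply]
    rw [hg.symm (γ t) (ξ' t) (w t)]
    ring
  rw [intervalIntegral.integral_const_mul] at hfin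
  have := mul_eq_zero.1 hfin
  rcases this with h | h
  · norm_num at h
  · exact h

end Pool.Agent.Helper48.LH
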