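import Pool.Agent.Helper62.LH.StV

/-! # Project LH: segment inequality -/

set_option autoImplicit false
set_option maxSynthPendingDepth 3

open Set Filter Topology MeasureTheory
open scoped ContDiff ENNReal

noncomputable section

namespace Pool.Agent.Helper48.LH

open Helper62.LH

lemma symm_SEG {n : ℕ} {g : E n → Bl n} (hs : ∀ x y, dg g x y = dg g y x) (h : E n → ℝ) (t : ℝ)
    (x y : E n) : HS g h t x y = HS g h (1 - t) y x := by
  have : Gt g t x y = Gt g (1 - t) y x := by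
    ext z
    simp only [Gt, mem_setOf_eq]
    rw [hs y z, hs y x, hs z x, sub_sub_cancel]
    exact and_comm
  unfold HS
  rw [this]

/-- one half of the estimate -/
lemma half_SEG {X : Type*} [MeasurableSpace X] (μ : Measure X) [SFinite μ]
    (F : ℝ × X × X → ℝ≥0∞) (hF : Measurable F) (D : Set X)
    (T : Set ℝ) (c : ℝ≥0∞)
    (h : ∀ t ∈ T, ∀ x ∈ D, ∫⁻ y in D, F (t, x, y) ∂μ ≤ c) :
    ∫⁻ x in D, (∫⁻ y in D, (∫⁻ t in T, F (t, x, y)) ∂μ) ∂μ ≤ c * volume T * μ D := by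
  have h1 : ∀ x ∈ D, ∫⁻ y in D, (∫⁻ t in T, F (t, x, y)) ∂μ ≤ c * volume T := by
    intro x hx
    rw [lintegral_lintegral_swap]
    · calc ∫⁻ t in T, (∫⁻ y in D, F (t, x, y) ∂μ) ≤ ∫⁻ t in T, c := by
            apply setLIntegral_mono measurable_const
            intro t ht
            exact h t ht x hx
        _ = c * volume T := by rw [setLIntegral_const]
    · apply Measurable.aemeasurable
      have : Measurable (fun p : X × ℝ => ((p.2, x, p.1) : ℝ × X × X)) :=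
        measurable_snd.prodMk (measurable_const.prodMk measurable_fst)
      exact hF.comp this
  calc ∫⁻ x in D, (∫⁻ y in D, (∫⁻ t in T, F (t, x, y)) ∂μ) ∂μ
      ≤ ∫⁻ x in D, c * volume T ∂μ := setLIntegral_mono measurable_const h1
    _ = c * volume T * μ D := by rw [setLIntegral_const]

/-- measurability of the inner integral -/
lemma meas_SEG {X : Type*} [MeasurableSpace X] (F : ℝ × X × X → ℝ≥0∞) (hF : Measurable F)
    (T : Set ℝ) : Measurable (fun p : X × X => ∫⁻ t in T, F (t, p.1, p.2)) := by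
  have h0 : Measurable (fun q : (X × X) × ℝ => ((q.2, q.1.1, q.1.2) : ℝ × X × X)) :=
    measurable_snd.prodMk ((measurable_fst.comp measurable_fst).prodMk
      (measurable_snd.comp measurable_fst))
  have h1 : Measurable (fun q : (X × X) × ℝ => F (q.2, q.1.1, q.1.2)) := hF.comp h0
  exact h1.lintegral_prod_right'

/-- the abstract statement -/
lemma abs_SEG {X : Type*} [MeasurableSpace X] (μ : Measure X) [SFinite μ]
    (F : ℝ × X × X → ℝ≥0∞) (hF : Measurable F) (D : Set X) (c : ℝ≥0∞)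
    (h1 : ∀ t ∈ Icc (1 / 2 : ℝ) 1, ∀ x ∈ D, ∫⁻ y in D, F (t, x, y) ∂μ ≤ c)
    (h2 : ∀ t ∈ Icc (0 : ℝ) (1 / 2), ∀ y ∈ D, ∫⁻ x in D, F (t, x, y) ∂μ ≤ c) :
    ∫⁻ x in D, (∫⁻ y in D, (∫⁻ t in Icc (0 : ℝ) 1, F (t, x, y)) ∂μ) ∂μ ≤ c * μ D := by
  have hFm := meas_SEG F hF (Icc (0 : ℝ) (1 / 2))
  have hA2 := half_SEG μ F hF D (Icc (1 / 2 : ℝ) 1) c h1
  have hA1 : ∫⁻ x in D, (∫⁻ y in D, (∫⁻ t in Icc (0 : ℝ) (1 / 2), F (t, x, y)) ∂μ) ∂μ ≤
      c * volume (Icc (0 : ℝ) (1 / 2)) * μ D := by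
    have hsw : ∫⁻ x in D, (∫⁻ y in D, (∫⁻ t in Icc (0 : ℝ) (1 / 2), F (t, x, y)) ∂μ) ∂μ =
        ∫⁻ y in D, (∫⁻ x in D, (∫⁻ t in Icc (0 : ℝ) (1 / 2), F (t, x, y)) ∂μ) ∂μ :=
      lintegral_lintegral_swap (f := fun x y => ∫⁻ t in Icc (0 : ℝ) (1 / 2), F (t, x, y))
        hFm.aemeasurable
    rw [hsw]
    have h0 : Measurable (fun q : ℝ × X × X => ((q.1, q.2.2, q.2.1) : ℝ × X × X)) :=
      measurable_fst.prodMk ((measurable_snd.comp measurable_snd).prodMk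
        (measurable_fst.comp measurable_snd))
    have hF' : Measurable (fun q : ℝ × X × X => F (q.1, q.2.2, q.2.1)) := hF.comp h0
    exact half_SEG μ (fun q : ℝ × X × X => F (q.1, q.2.2, q.2.1)) hF' D _ c h2
  have hsplit : ∀ x y, ∫⁻ t in Icc (0 : ℝ) 1, F (t, x, y) ≤
      (∫⁻ t in Icc (0 : ℝ) (1 / 2), F (t, x, y)) + ∫⁻ t in Icc (1 / 2 : ℝ) 1, F (t, x, y) := by
    intro x y
    have : Icc (0 : ℝ) 1 = Icc (0 : ℝ) (1 / 2) ∪ Icc (1 / 2 : ℝ) 1 :=
      (Icc_union_Icc_eq_Icc (by norm_num) (by norm_num)).symm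
    rw [this]
    exact lintegral_union_le _ _ _
  have hv : volume (Icc (0 : ℝ) (1 / 2)) + volume (Icc (1 / 2 : ℝ) 1) = 1 := by
    rw [Real.volume_Icc, Real.volume_Icc, ← ENNReal.ofReal_add (by norm_num) (by norm_num)]
    norm_num
  have hm1 : Measurable (fun x => ∫⁻ y in D, (∫⁻ t in Icc (0 : ℝ) (1 / 2), F (t, x, y)) ∂μ) :=
    Measurable.lintegral_prod_right' (f := fun p : X × X =>
      ∫⁻ t in Icc (0 : ℝ) (1 / 2), F (t, p.1, p.2)) hFm
  have hm2 : ∀ x, Measurable (fun y => ∫⁻ t in Icc (0 : ℝ) (1 / 2), F (t, x, y)) := fun x =>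
    hFm.comp (measurable_prodMk_left (x := x))
  calc ∫⁻ x in D, (∫⁻ y in D, (∫⁻ t in Icc (0 : ℝ) 1, F (t, x, y)) ∂μ) ∂μ
      ≤ ∫⁻ x in D, (∫⁻ y in D, ((∫⁻ t in Icc (0 : ℝ) (1 / 2), F (t, x, y)) +
          ∫⁻ t in Icc (1 / 2 : ℝ) 1, F (t, x, y)) ∂μ) ∂μ :=
        lintegral_mono fun x => lintegral_mono fun y => hsplit x y
    _ = ∫⁻ x in D, ((∫⁻ y in D, (∫⁻ t in Icc (0 : ℝ) (1 / 2), F (t, x, y)) ∂μ) +
          ∫⁻ y in D, (∫⁻ t in Icc (1 / 2 : ℝ) 1, F (t, x, y)) ∂μ) ∂μ := by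
        refine lintegral_congr fun x => ?_
        exact lintegral_add_left (hm2 x) _
    _ = (∫⁻ x in D, (∫⁻ y in D, (∫⁻ t in Icc (0 : ℝ) (1 / 2), F (t, x, y)) ∂μ) ∂μ) +
          ∫⁻ x in D, (∫⁻ y in D, (∫⁻ t in Icc (1 / 2 : ℝ) 1, F (t, x, y)) ∂μ) ∂μ :=
        lintegral_add_left hm1 _
    _ ≤ c * volume (Icc (0 : ℝ) (1 / 2)) * μ D +
          c * volume (Icc (1 / 2 : ℝ) 1) * μ D := add_le_add hA1 hA2
    _ = c * (volume (Icc (0 : ℝ) (1 / 2)) + volume (Icc (1 / 2 : ℝ) 1)) * μ D := by ring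
    _ = c * μ D := by rw [hv, mul_one]

lemma sf_SEG {n : ℕ} (g : E n → Bl n) : SFinite (mg g) := by
  unfold mg; infer_instance

theorem hSeg (hMet : StMet) (hUsc : StUsc) (hSga : StSga) : StSeg := by
  intro n g Γ hg hΓ hc hS h hh D hD hDG
  obtain ⟨-, -, -, -, hsym, -⟩ := hMet n g hg
  have hF := (hUsc n g hg hc h hh).1
  have : SFinite (mg g) := sf_SEG g
  have key := abs_SEG (mg g) (fun q : ℝ × E n × E n => HS g h q.1 q.2.1 q.2.2) hF D
    (2 ^ n * ∫⁻ y in D, ENNReal.ofReal (h y) ∂(mg g))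
    (by
      intro t ht x hx
      exact hSga n g Γ hg hΓ hc hS h hh x t ht D hD
        (fun y hy => hDG x hx y hy t ⟨by linarith [ht.1], ht.2⟩))
    (by
      intro t ht y hy
      have h2 : ∀ x, HS g h t x y = HS g h (1 - t) y x := fun x => symm_SEG hsym h t x y
      have ht' : 1 - t ∈ Icc (1 / 2 : ℝ) 1 := ⟨by linarith [ht.2], by linarith [ht.1]⟩
      have h3 := hSga n g Γ hg hΓ hc hS h hh y (1 - t) ht' D hD
        (fun x hx => hDG y hy x hx (1 - t) ⟨by linarith [ht'.1], ht'.2⟩)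
      calc ∫⁻ x in D, HS g h t x y ∂(mg g) = ∫⁻ x in D, HS g h (1 - t) y x ∂(mg g) :=
            lintegral_congr fun x => h2 x
        _ ≤ _ := h3)
  refine key.trans (le_of_eq ?_)
  rw [mul_assoc, mul_assoc, mul_comm (∫⁻ y in D, ENNReal.ofReal (h y) ∂(mg g))]

end Pool.Agent.Helper48.LH
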